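import Pool.Agent.MP_3ee8cb_gt.DZZ.Zero
import Pool.Agent.MP_3ee8cb_gt.DZ.Spec

/-! The zero of the averaged field: the statements of the block. -/

namespace Pool.Agent.MP_3ee8cb_gt.DZ

open Set Filter Topology MeasureTheory DN DZZ
open scoped RealInnerProductSpace

variable [Dim]

theorem sFL45 : SFL := by
  intro m₀ m lg dX ε u C C₀ Q _ hX hY _ _ _ f hf x
  have c2 : ContDiff ℝ 1 fun q : V × V => (m.Z 1 q).1 :=
    (hY.ok.cZ.comp (contDiff_const.prodMk contDiff_id)).fst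
  have g0 : ∀ y, (m.Z 1 (y, 0)).1 = y := fun y => by
    rw [← DNWI.lg_self hY.ok hY.jac hY.had y, hY.had.ex]
  have t0 : Tendsto (fun q : V × V => (1 + 1) * ‖m₀.S x (q.2 - q.1)‖) (𝓝 (x, x)) (𝓝 0) := by
    have : Continuous fun q : V × V => (1 + 1) * ‖m₀.S x (q.2 - q.1)‖ := by fun_prop
    simpa using this.tendsto (x, x)
  have k1 : ∀ᶠ q : V × V in 𝓝 (x, x),
      ‖lg (f q.1, f q.2)‖ ≤ 2 * dm * ((1 + 1) * ‖m₀.S x (q.2 - q.1)‖) := by
    filter_upwards [hX.upp x 1 one_pos, t0.eventually (ge_mem_nhds one_pos)] with q a1 a2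
    exact (hf.lip _ _ (a1.trans a2)).trans (mul_le_mul_of_nonneg_left a1 (by positivity))
  have t1 : Tendsto (fun q : V × V => lg (f q.1, f q.2)) (𝓝 (x, x)) (𝓝 0) :=
    squeeze_zero_norm' k1 (by simpa using t0.const_mul (2 * dm : ℝ))
  have t2 : Tendsto f (𝓝 x) (𝓝 (f x)) := by
    have := (c2.continuous.tendsto (f x, 0)).comp ((tendsto_const_nhds (x := f x)).prodMk_nhds
      (t1.comp ((tendsto_const_nhds (x := x)).prodMk_nhds tendsto_id)))
    simpa [Function.comp_def, hY.had.ex, g0] using this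
  obtain ⟨K, s, hs, hK⟩ := (c2.contDiffAt (x := (f x, 0))).exists_lipschitzOnWith
  have t3 : Tendsto (fun q : V × V => f q.1) (𝓝 (x, x)) (𝓝 (f x)) :=
    t2.comp (continuous_fst.tendsto (x, x))
  have k2 := (k1.and ((t3.prodMk_nhds t1).eventually hs)).and
    ((t3.prodMk_nhds (tendsto_const_nhds (x := (0 : V)))).eventually hs)
  rw [nhds_prod_eq] at k2
  obtain ⟨r, hr, k3⟩ := mem_prod_self_iff.1 k2
  refine ⟨K * (4 * dm * ‖m₀.S x‖₊), r, hr, LipschitzOnWith.of_dist_le_mul fun a ha b hb => ?_⟩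
  obtain ⟨⟨a1, a2⟩, a3⟩ := k3 (mk_mem_prod ha hb)
  have a4 := hK.dist_le_mul _ a3 _ a2
  simp only [g0, hY.had.ex, Prod.dist_eq, dist_self, dist_zero_left] at a4
  rw [max_eq_right (norm_nonneg _)] at a4
  refine a4.trans ?_
  simp only [NNReal.coe_mul, NNReal.coe_natCast, NNReal.coe_ofNat, coe_nnnorm]
  rw [mul_assoc (K : ℝ), dist_comm, dist_eq_norm]
  refine mul_le_mul_of_nonneg_left (a1.trans ?_) K.2
  nlinarith [mul_le_mul_of_nonneg_left ((m₀.S x).le_opNorm (b - a)) (by positivity : (0 : ℝ) ≤ dm)]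

end Pool.Agent.MP_3ee8cb_gt.DZ
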