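import Pool.Agent.MP_3ee8cb_gt.DZ.Spec
import Pool.Agent.MP_3ee8cb_gt.DNWI.Base

/-! Consequences of the axioms of a family of Busemann functions. -/

namespace Pool.Agent.MP_3ee8cb_gt.DZ

open DN (Dim dm)

variable [Dim]

open Set Filter Topology Real DN
open DNWI (lg_symm)
open scoped RealInnerProductSpace

namespace BgB

variable {m : MF} {lg : V × V → V} {dX : V → V → ℝ} {P : Type} [TopologicalSpace P] {A : Fam P}

theorem seg (Y : YW m lg) (y z : V) : ∃ v, ‖v‖ = 1 ∧ (m.Z ‖lg (y, z)‖ (y, v)).1 = z := by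
  by_cases h : ‖lg (y, z)‖ = 0
  · refine ⟨EuclideanSpace.single ⟨0, by unfold dm; omega⟩ 1, by simp, ?_⟩
    have e := Y.had.ex y z
    have s := Y.jac.scale 1 0 y 0
    rw [zero_smul, zero_mul, Y.ok.zero] at s
    rw [norm_eq_zero.1 h, s] at e
    rw [h, Y.ok.zero]
    exact e
  · refine ⟨‖lg (y, z)‖⁻¹ • lg (y, z), ?_, ?_⟩
    · rw [norm_smul, norm_inv, norm_norm, inv_mul_cancel₀ h]
    · rw [Y.jac.scale, inv_mul_cancel₀ h]
      exact Y.had.ex y z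

theorem opp (B : BF m lg dX A) (p : P) (z : V) : 0 ≤ A.β p z + A.β (A.fl p) z := by
  obtain ⟨v, hv, e⟩ := seg B.yw (A.ft p) z
  obtain ⟨-, f2, f3⟩ := B.flp p
  have h1 := (B.isb p).lb (A.ft p) v ‖lg (A.ft p, z)‖ hv
  have h2 := (B.isb (A.fl p)).lb (A.ft p) v ‖lg (A.ft p, z)‖ hv
  have f0 := B.foot (A.fl p)
  rw [f2] at f0
  rw [e, B.foot, exp_zero, one_mul] at h1
  rw [e, f0, f3, exp_zero, one_mul, inner_neg_left] at h2
  have s1 := abs_real_inner_le_norm (A.ν p (A.ft p)) v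
  rw [(B.isb p).unit, hv, one_mul, abs_le] at s1
  have l0 := sinh_nonneg_iff.2 (norm_nonneg (lg (A.ft p, z)))
  have l1 := sinh_lt_cosh ‖lg (A.ft p, z)‖
  have l2 := cosh_sq' ‖lg (A.ft p, z)‖
  generalize ⟪A.ν p (A.ft p), v⟫ = s at h1 h2 s1
  generalize sinh ‖lg (A.ft p, z)‖ = a at *
  generalize cosh ‖lg (A.ft p, z)‖ = c at *
  have k := mul_le_mul h1 h2 (by nlinarith [s1.1]) (exp_pos _).le
  rw [← exp_add] at k
  rw [← one_le_exp_iff]
  nlinarith [mul_nonneg (mul_nonneg (sub_nonneg.2 s1.2) (by linarith [s1.1] : 0 ≤ s + 1))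
    (sq_nonneg a)]

theorem two (B : BF m lg dX A) (p q : P) (h : A.pr p = A.pr q) : A.β p (A.ft q) ≤ log 2 := by
  obtain ⟨f1, f2, f3⟩ := B.flp q
  refine le_of_forall_pos_le_add fun e he => ?_
  obtain ⟨T, g1, g2⟩ := ((B.gr p q h e he).and (B.gr p (A.fl q) (h.trans f1.symm) e he)).exists
  rw [f2, f3] at g2
  have u := (B.isb q).unit (A.ft q)
  have h1 := ((B.isb p).lb (A.ft q) _ T u).trans (exp_le_exp.2 g1)
  have h2 := ((B.isb p).lb (A.ft q) _ T ((norm_neg _).trans u)).trans (exp_le_exp.2 g2)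
  rw [inner_neg_right] at h2
  rw [exp_add] at h1 h2
  rw [cosh_eq] at h1 h2
  rw [← exp_le_exp, exp_add, exp_log two_pos]
  refine le_of_mul_le_mul_right ?_ (exp_pos T)
  linarith [mul_pos (exp_pos (A.β p (A.ft q))) (exp_pos (-T))]

theorem onto (B : BF m lg dX A) (x z w : V) (hw : ‖w‖ = 1) : ∃ p, A.pr p = x ∧ A.ν p z = w := by
  obtain ⟨p, -, e⟩ := B.sur z w hw
  obtain ⟨q, k, h1, h2⟩ := B.mov p x
  refine ⟨q, h1, (B.b1 q).eq z w hw ?_⟩
  rw [h2, h2, ← e, (B.isb p).ray]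
  linarith

theorem same (B : BF m lg dX A) (p q : P) (z : V) (h : A.pr p = A.pr q)
    (e : A.ν p z = A.ν q z) : A.β p z = A.β q z := by
  have k := B.lip p q (A.β q z - A.β p z) fun y => by
    have h1 := (B.b1 p).lim z y
    rw [e] at h1
    linarith [tendsto_nhds_unique h1 ((B.b1 q).lim z y)]
  rw [h, B.self, abs_nonpos_iff] at k
  linarith

theorem near (B : BF m lg dX A) (p : P) (z : V) (R : ℝ) (h : z ∈ A.C R (A.pr p)) :
    ‖lg (A.ft p, z)‖ ≤ R + 1 := by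
  obtain ⟨v, hv, e⟩ := seg B.yw z (A.ft p)
  obtain ⟨q, h1, h2⟩ := onto B (A.pr p) z v hv
  have r := (B.isb q).ray z ‖lg (z, A.ft p)‖
  rw [h2, e] at r
  have a1 := h q h1
  have a2 := opp B q (A.ft p)
  have a3 := two B (A.fl q) p ((B.flp q).1.trans h1)
  have a4 := log_le_sub_one_of_pos (two_pos (α := ℝ))
  rw [lg_symm B.yw.jac B.yw.had]
  linarith

end BgB

theorem sBG45 : SBG := fun _ _ _ _ _ _ B =>
  ⟨BgB.opp B, BgB.two B, BgB.onto B, BgB.same B, BgB.near B⟩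

end Pool.Agent.MP_3ee8cb_gt.DZ
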