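import Pool.Agent.MP_3ee8cb_gt.DNWI.Base
import Pool.Agent.MP_98f34a_gt.H36.Brouwer

/-! Zeros of vector fields that point inwards, and one sided derivatives. -/

namespace Pool.Agent.MP_3ee8cb_gt.DZZ

open Set Filter Topology DN
open scoped RealInnerProductSpace

theorem inward {E : Type} [NormedAddCommGroup E] [InnerProductSpace ℝ E] [FiniteDimensional ℝ E]
    {G : E → E} (hG : Continuous G) {ρ : ℝ} (hρ : 0 < ρ) (h : ∀ b, ‖b‖ = ρ → ⟪b, G b⟫ < 0) :
    ∃ b, ‖b‖ ≤ ρ ∧ G b = 0 := by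
  have m0 : ∀ b : E, 0 < max ρ ‖b‖ := fun b => lt_max_of_lt_left hρ
  let π : E → E := fun b => (ρ / max ρ ‖b‖) • b
  have cπ : Continuous π :=
    (continuous_const.div (continuous_const.max continuous_norm) fun b => (m0 b).ne').smul
      continuous_id
  have nπ : ∀ b, ‖π b‖ = ρ / max ρ ‖b‖ * ‖b‖ := fun b => by
    rw [norm_smul, Real.norm_of_nonneg (div_pos hρ (m0 b)).le]
  have bπ : ∀ b, π b ∈ Metric.closedBall (0 : E) ρ := fun b => by
    rw [mem_closedBall_zero_iff, nπ, div_mul_eq_mul_div, div_le_iff₀ (m0 b)]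
    exact mul_le_mul_of_nonneg_left (le_max_right _ _) hρ.le
  have := FiniteDimensional.proper_real E
  obtain ⟨R, hR⟩ := (isCompact_closedBall (0 : E) ρ).exists_bound_of_continuousOn
    (continuous_id.add hG).continuousOn
  obtain ⟨b, hb⟩ := MP_98f34a_gt.H36.brouwer_euclid (fun b => π b + G (π b))
    (cπ.add (hG.comp cπ)) R fun b => hR _ (bπ b)
  rcases le_total ‖b‖ ρ with k | k
  · have e : π b = b := by simp [π, max_eq_left k, hρ.ne']
    rw [e] at hb
    exact ⟨b, k, add_eq_left.1 hb⟩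
  · have b0 := hρ.trans_le k
    have k1 := h (π b) (by rw [nπ, max_eq_right k, div_mul_cancel₀ _ b0.ne'])
    rw [eq_sub_of_add_eq' hb] at k1
    simp only [π, max_eq_right k, inner_sub_right, real_inner_smul_left, norm_smul, mul_pow,
      real_inner_self_eq_norm_sq, Real.norm_eq_abs, sq_abs] at k1
    have k2 : ρ / ‖b‖ ≤ 1 := (div_le_one b0).2 k
    nlinarith [mul_nonneg (mul_nonneg (div_pos hρ b0).le (sub_nonneg.2 k2)) (sq_nonneg ‖b‖)]

/-- A continuous function that is touched from below by functions with nonpositive derivative. -/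
theorem anti_below {f : ℝ → ℝ} {a b : ℝ} (hab : a ≤ b) (hf : ContinuousOn f (Icc a b))
    (h : ∀ t ∈ Icc a b, ∃ (ψ : ℝ → ℝ) (d : ℝ), HasDerivAt ψ d t ∧ d ≤ 0 ∧ ψ t = f t ∧
      ∀ᶠ s in 𝓝 t, ψ s ≤ f s) : f b ≤ f a := by
  have key := image_le_of_liminf_slope_right_le_deriv_boundary (f := fun s => -f (-s))
    (a := -b) (b := -a) (B := fun _ => -f b) (B' := fun _ => 0)
    ((hf.comp continuous_neg.continuousOn fun s hs => ⟨by linarith [hs.2], by linarith [hs.1]⟩).neg)
    (by simp) continuousOn_const (fun _ _ => hasDerivWithinAt_const _ _ _) (fun x hx r hr => ?_)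
    (x := -a) ⟨neg_le_neg hab, le_rfl⟩
  · simpa using key
  obtain ⟨ψ, d, h1, h2, h3, h4⟩ := h (-x) ⟨by linarith [hx.2], by linarith [hx.1]⟩
  have k1 := (h1.comp x (hasDerivAt_neg x)).neg
  have k2 := ((hasDerivAt_iff_tendsto_slope.1 k1).mono_left
    (nhdsWithin_mono x fun y (hy : y ∈ Ioi x) => (mem_Ioi.1 hy).ne')).eventually
      (gt_mem_nhds (show -(d * -1) < r by linarith))
  have k3 := (continuous_neg.tendsto x).eventually h4
  refine Eventually.frequently ?_
  filter_upwards [k2, nhdsWithin_le_nhds k3, self_mem_nhdsWithin] with y a1 a2 a3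
  refine lt_of_le_of_lt ?_ a1
  simp only [slope_def_field, Pi.neg_apply, Function.comp_apply, h3]
  exact div_le_div_of_nonneg_right (by linarith) (sub_pos.2 a3).le

/-- The same from above. -/
theorem anti_above {f : ℝ → ℝ} {a b : ℝ} (hab : a ≤ b) (hf : ContinuousOn f (Icc a b))
    (h : ∀ t ∈ Icc a b, ∃ (ψ : ℝ → ℝ) (d : ℝ), HasDerivAt ψ d t ∧ d ≤ 0 ∧ ψ t = f t ∧
      ∀ᶠ s in 𝓝 t, f s ≤ ψ s) : f b ≤ f a := by
  have key := anti_below (f := fun s => -f (-s)) (neg_le_neg hab)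
    ((hf.comp continuous_neg.continuousOn fun s hs => ⟨by linarith [hs.2], by linarith [hs.1]⟩).neg)
    fun t ht => ?_
  · simpa using key
  obtain ⟨ψ, d, h1, h2, h3, h4⟩ := h (-t) ⟨by linarith [ht.2], by linarith [ht.1]⟩
  exact ⟨_, _, (h1.comp t (hasDerivAt_neg t)).neg, by linarith, by simp [h3],
    ((continuous_neg.tendsto t).eventually h4).mono fun s hs => neg_le_neg hs⟩

variable [Dim] {m : MF} {lg : V × V → V}

/-- A continuous field that points inwards on a sphere has a zero in the ball. -/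
theorem zero_ex (ho : m.OK) (hl : m.Had lg) {W : V → V} (hW : Continuous W) (y : V) {ρ : ℝ}
    (hρ : 0 < ρ) (h : ∀ b, ‖b‖ = ρ → ⟪(m.Z 1 (y, b)).2, W (m.Z 1 (y, b)).1⟫ < 0) :
    ∃ z, ‖lg (y, z)‖ ≤ ρ ∧ W z = 0 := by
  have c1 : ContDiff ℝ 1 fun z => lg (y, z) := hl.c1.comp (contDiff_const.prodMk contDiff_id)
  have c2 : ContDiff ℝ 1 fun b => (m.Z 1 (y, b)).1 :=
    (ho.cZ.comp (contDiff_const.prodMk (contDiff_const.prodMk contDiff_id))).fst
  have c3 : Continuous fun z => fderiv ℝ (fun z => lg (y, z)) z (m.R z (W z)) :=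
    (c1.continuous_fderiv one_ne_zero).clm_apply (ho.cR.continuous.clm_apply hW)
  obtain ⟨b, h1, h2⟩ := inward (c3.comp c2.continuous) hρ fun b hb => by
    obtain ⟨z, hz⟩ : ∃ z, z = (m.Z 1 (y, b)).1 := ⟨_, rfl⟩
    have e : lg (y, z) = b := hz ▸ hl.xe y b
    have d1 := (c1.differentiable one_ne_zero z).hasFDerivAt
    have d0 : DifferentiableAt ℝ (fun q => ‖lg q‖ ^ 2 / 2) (y, z) :=
      ((hl.c1.differentiable one_ne_zero (y, z)).norm_sq ℝ).mul_const _
    have d2 := (d0.hasFDerivAt.comp z (hasFDerivAt_prodMk_right y z)).unique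
      (d1.norm_sq.mul_const (2 : ℝ)⁻¹)
    have d3 := DFunLike.congr_fun d2 (m.R z (W z))
    have d4 := h b hb
    rw [ContinuousLinearMap.comp_apply, hl.grad] at d3
    simp only [ContinuousLinearMap.inr_apply, map_zero, inner_zero_right, Prod.swap_prod_mk, ho.SR,
      hl.rev y z, e] at d3
    rw [Function.comp_apply, ← hz]
    rw [← hz] at d4
    simp at d3
    linarith
  refine ⟨_, (hl.xe y b).symm ▸ h1, ?_⟩
  obtain ⟨z, hz⟩ : ∃ z, z = (m.Z 1 (y, b)).1 := ⟨_, rfl⟩
  rw [Function.comp_apply, ← hz] at h2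
  have d0 := (c2.differentiable one_ne_zero (lg (y, z))).hasFDerivAt.comp z
    (c1.differentiable one_ne_zero z).hasFDerivAt
  have d1 := d0.unique ((hasFDerivAt_id z).congr_of_eventuallyEq (Eventually.of_forall (hl.ex y)))
  have d2 := DFunLike.congr_fun d1 (m.R z (W z))
  rw [ContinuousLinearMap.comp_apply, h2, map_zero, ContinuousLinearMap.id_apply] at d2
  rw [← hz, ← ho.SR z (W z), ← d2, map_zero]

end Pool.Agent.MP_3ee8cb_gt.DZZ
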