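import Pool.Agent.MP_3ee8cb_gt.DZZ.Ex

/-! Monotonicity of the averaged field along geodesics. -/

namespace Pool.Agent.MP_3ee8cb_gt.DZZ

open Set Filter Topology MeasureTheory DN
open scoped RealInnerProductSpace

noncomputable section

variable [Dim]

/-- A rotation invariant measure of total mass the dimension. -/
structure Rot (μ : Measure V) : Prop where
  fin : IsFiniteMeasure μ
  inv : ∀ O : V ≃ₗᵢ[ℝ] V, MeasurePreserving O μ μ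
  ne : ∀ᵐ w ∂μ, w ≠ 0
  mass : μ.real univ = dm

theorem nrm {w : V} (h : w ≠ 0) : ‖‖w‖⁻¹ • w‖ = 1 := norm_smul_inv_norm h

namespace Rot

variable {μ : Measure V} (h : Rot μ)
include h

theorem comp {F : Type} [NormedAddCommGroup F] [NormedSpace ℝ F] (O : V ≃ₗᵢ[ℝ] V) (f : V → F) :
    ∫ w, f (‖w‖⁻¹ • w) ∂μ = ∫ w, f (O (‖w‖⁻¹ • w)) ∂μ := by
  rw [← (h.inv O).integral_comp O.toHomeomorph.measurableEmbedding]
  simp only [O.norm_map, map_smul]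

theorem int {F : Type} [NormedAddCommGroup F] [NormedSpace ℝ F] {f : V → F}
    (hf : ContinuousOn f {w | ‖w‖ = 1}) : Integrable (fun w => f (‖w‖⁻¹ • w)) μ := by
  have := h.fin
  have e : {w : V | ‖w‖ = 1} = Metric.sphere 0 1 := by ext; simp
  obtain ⟨C, hC⟩ := (isCompact_sphere (0 : V) 1).exists_bound_of_continuousOn (e ▸ hf)
  have c : ContinuousOn (fun w : V => f (‖w‖⁻¹ • w)) {w | w ≠ 0} :=
    hf.comp ((continuous_norm.continuousOn.inv₀ fun _ hw => norm_ne_zero_iff.2 hw).smul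
      continuousOn_id) fun _ hw => nrm hw
  have m := c.aestronglyMeasurable (μ := μ) isOpen_ne.measurableSet
  rw [Measure.restrict_eq_self_of_ae_mem (s := {w | w ≠ 0}) h.ne] at m
  exact Integrable.of_bound m C (h.ne.mono fun w hw => hC _ (e ▸ nrm hw))

theorem sq (e : V) : ∫ w, ⟪‖w‖⁻¹ • w, e⟫ ^ 2 ∂μ = ‖e‖ ^ 2 := by
  have := h.fin
  let b := EuclideanSpace.basisFun (Fin dm) ℝ
  have k : ∀ e e' : V, ‖e‖ = ‖e'‖ →
      ∫ w, ⟪‖w‖⁻¹ • w, e⟫ ^ 2 ∂μ = ∫ w, ⟪‖w‖⁻¹ • w, e'⟫ ^ 2 ∂μ := fun e e' k => by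
    obtain ⟨O, rfl⟩ : ∃ O : V ≃ₗᵢ[ℝ] V, O e' = e := ⟨_, Submodule.reflection_sub k.symm⟩
    rw [h.comp O fun w => ⟪w, O e'⟫ ^ 2]
    simp only [LinearIsometryEquiv.inner_map_map]
  have k1 : ∑ i, ∫ w, ⟪‖w‖⁻¹ • w, b i⟫ ^ 2 ∂μ = dm := by
    rw [← integral_finsetSum _ fun i _ => h.int (f := fun w => ⟪w, b i⟫ ^ 2) (by fun_prop),
      ← h.mass, ← mul_one (μ.real univ), ← smul_eq_mul, ← integral_const]
    exact integral_congr_ae (h.ne.mono fun w hw => by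
      simp only [b.sum_sq_inner_left, nrm hw, one_pow])
  have k2 : ∫ w, ⟪‖w‖⁻¹ • w, b 0⟫ ^ 2 ∂μ = 1 := by
    rw [Finset.sum_congr rfl fun i _ => k (b i) (b 0) (by simp), Finset.sum_const, Finset.card_univ,
      Fintype.card_fin, nsmul_eq_mul] at k1
    exact (mul_eq_left₀ (by positivity)).1 k1
  rw [k e (‖e‖ • b 0) (by simp [norm_smul])]
  simp only [real_inner_smul_right, mul_pow, integral_const_mul, k2, mul_one]

end Rot

/-- The averaged field. -/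
def av (μ : Measure V) (u : V × V → ℝ) (z : V) : V := ∫ w, u (z, ‖w‖⁻¹ • w) • ‖w‖⁻¹ • w ∂μ

/-- `u` is touched from below at `p`. -/
def Tch (m : MF) (u : V × V → ℝ) (ε : ℝ) (p : V × V) : Prop :=
  ∃ (Φ : V × V → ℝ) (D : V × V →L[ℝ] ℝ) (c : ℝ) (ζ : V), HasFDerivAt Φ D p ∧ Φ p = u p ∧
    (∀ᶠ q in 𝓝 p, ‖q.2‖ = 1 → Φ q ≤ u q) ∧ 1 ≤ c ∧ ‖ζ‖ ≤ ε ∧
    ∀ ξ, m.ver p ξ = 0 → D ξ = -⟪c • p.2 + ζ, m.hor p ξ⟫

variable {m : MF} {μ : Measure V} {u : V × V → ℝ} {ε : ℝ}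

theorem one (ho : m.OK) (hu : ContinuousOn u {p | ‖p.2‖ = 1}) {z : V × V} {O : ℝ → V ≃ₗᵢ[ℝ] V}
    (h1 : ∀ t, O t z.2 = (m.Z t z).2) (h2 : ∀ a t, HasDerivAt (fun s => O s a) (-m.w z t (O t a)) t)
    {a b : ℝ} (hab : a ≤ b) {w : V} (hw : ‖w‖ = 1)
    (h : ∀ t ∈ Icc a b, Tch m u ε ((m.Z t z).1, O t w)) :
    u ((m.Z b z).1, O b w) * ⟪w, z.2⟫ + b * (⟪w, z.2⟫ ^ 2 - ε * ‖z.2‖ ^ 2) ≤
      u ((m.Z a z).1, O a w) * ⟪w, z.2⟫ + a * (⟪w, z.2⟫ ^ 2 - ε * ‖z.2‖ ^ 2) := by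
  have d := fun t => HasDerivAt.prodMk
    ((ContinuousLinearMap.fst ℝ V V).hasFDerivAt.comp_hasDerivAt t (ho.ode z t)) (h2 w t)
  have n : ∀ t, ‖O t w‖ = 1 := fun t => ((O t).norm_map w).trans hw
  have c : ContinuousOn (fun t => u ((m.Z t z).1, O t w) * ⟪w, z.2⟫ +
      t * (⟪w, z.2⟫ ^ 2 - ε * ‖z.2‖ ^ 2)) (Icc a b) :=
    ((hu.comp (fun t _ => (d t).continuousAt.continuousWithinAt) fun t _ => n t).mul
      continuousOn_const).add (continuousOn_id.mul continuousOn_const)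
  have k : ∀ t ∈ Icc a b, ∃ (ψ : ℝ → ℝ) (e : ℝ), HasDerivAt ψ e t ∧
      e * ⟪w, z.2⟫ + 1 * (⟪w, z.2⟫ ^ 2 - ε * ‖z.2‖ ^ 2) ≤ 0 ∧ ψ t = u ((m.Z t z).1, O t w) ∧
      ∀ᶠ s in 𝓝 t, ψ s ≤ u ((m.Z s z).1, O s w) := fun t ht => by
    obtain ⟨Φ, D, c, ζ, a1, a2, a3, a4, a5, a6⟩ := h t ht
    refine ⟨_, _, a1.comp_hasDerivAt t (d t), ?_, a2,
      ((d t).continuousAt.eventually a3).mono fun s hs => hs (n s)⟩
    rw [a6 _ (by simp [MF.ver, MF.vf, MF.w]), show m.hor _ _ = O t z.2 from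
      (ho.SR _ _).trans (h1 t).symm, inner_add_left, real_inner_smul_left,
      LinearIsometryEquiv.inner_map_map]
    have b1 := abs_real_inner_le_norm ζ (O t z.2)
    have b2 := abs_real_inner_le_norm w z.2
    rw [(O t).norm_map] at b1
    rw [hw, one_mul] at b2
    have b3 := mul_le_mul (b1.trans (mul_le_mul_of_nonneg_right a5 (norm_nonneg _))) b2
      (abs_nonneg _) (mul_nonneg ((norm_nonneg _).trans a5) (norm_nonneg _))
    rw [← abs_mul] at b3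
    nlinarith [neg_le_of_abs_le b3, mul_nonneg (sub_nonneg.2 a4) (sq_nonneg ⟪w, z.2⟫)]
  rcases le_total 0 ⟪w, z.2⟫ with p | p
  · refine anti_below hab c fun t ht => ?_
    obtain ⟨ψ, e, a1, a2, a3, a4⟩ := k t ht
    exact ⟨_, _, (a1.mul_const _).fun_add ((hasDerivAt_id t).mul_const _), a2, by simp [a3],
      a4.mono fun s hs => add_le_add_left (mul_le_mul_of_nonneg_right hs p) _⟩
  · refine anti_above hab c fun t ht => ?_
    obtain ⟨ψ, e, a1, a2, a3, a4⟩ := k t ht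
    exact ⟨_, _, (a1.mul_const _).fun_add ((hasDerivAt_id t).mul_const _), a2, by simp [a3],
      a4.mono fun s hs => add_le_add_left (mul_le_mul_of_nonpos_right hs p) _⟩

theorem av_inner (hμ : Rot μ) (hu : ContinuousOn u {p | ‖p.2‖ = 1}) (y e : V) (O : V ≃ₗᵢ[ℝ] V) :
    Integrable (fun w => u (y, O (‖w‖⁻¹ • w)) * ⟪‖w‖⁻¹ • w, e⟫) μ ∧
      ⟪av μ u y, O e⟫ = ∫ w, u (y, O (‖w‖⁻¹ • w)) * ⟪‖w‖⁻¹ • w, e⟫ ∂μ := by
  have c : ∀ O : V ≃ₗᵢ[ℝ] V, ContinuousOn (fun w => u (y, O w)) {w | ‖w‖ = 1} := fun O =>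
    hu.comp (by fun_prop) fun w hw => (O.norm_map w).trans hw
  refine ⟨hμ.int (f := fun w => u (y, O w) * ⟪w, e⟫) ((c O).mul (by fun_prop)), ?_⟩
  rw [av, hμ.comp O fun w => u (y, w) • w, real_inner_comm, ← integral_inner
    (hμ.int (f := fun w => u (y, O w) • O w) ((c O).smul (by fun_prop)))]
  simp only [real_inner_smul_right, LinearIsometryEquiv.inner_map_map, real_inner_comm e]

/-- The averaged field decreases along geodesics. -/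
theorem mono (ho : m.OK) (hj : m.Jac) (hμ : Rot μ) (hu : ContinuousOn u {p | ‖p.2‖ = 1})
    (z : V × V) {a b : ℝ} (hab : a ≤ b)
    (h : ∀ t ∈ Icc a b, ∀ w, ‖w‖ = 1 → Tch m u ε ((m.Z t z).1, w)) :
    ⟪av μ u (m.Z b z).1, (m.Z b z).2⟫ + (b - a) * ((1 - dm * ε) * ‖z.2‖ ^ 2) ≤
      ⟪av μ u (m.Z a z).1, (m.Z a z).2⟫ := by
  have := hμ.fin
  obtain ⟨O, -, h1, h2⟩ := hj.par z
  have i := hμ.int (f := fun w => ⟪w, z.2⟫ ^ 2) (by fun_prop)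
  have i' := fun t : ℝ => hμ.int (f := fun w => t * (⟪w, z.2⟫ ^ 2 - ε * ‖z.2‖ ^ 2)) (by fun_prop)
  have e : ∀ t, ∫ w, (u ((m.Z t z).1, O t (‖w‖⁻¹ • w)) * ⟪‖w‖⁻¹ • w, z.2⟫ +
      t * (⟪‖w‖⁻¹ • w, z.2⟫ ^ 2 - ε * ‖z.2‖ ^ 2)) ∂μ =
        ⟪av μ u (m.Z t z).1, (m.Z t z).2⟫ + t * ((1 - dm * ε) * ‖z.2‖ ^ 2) := fun t => by
    rw [integral_add (av_inner hμ hu _ _ _).1 (i' t),
      ← (av_inner hμ hu _ _ _).2, h1, integral_const_mul, integral_sub i (integrable_const _),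
      hμ.sq, integral_const, hμ.mass, smul_eq_mul]
    ring
  have k := integral_mono_ae
    ((av_inner hμ hu _ _ _).1.add (i' b)) ((av_inner hμ hu _ _ _).1.add (i' a))
    (hμ.ne.mono fun w hw => one ho hu h1 h2 hab (nrm hw) fun t ht =>
      h t ht _ (((O t).norm_map _).trans (nrm hw)))
  have k1 := e a
  have k2 := e b
  simp only [Pi.add_apply] at k
  linarith

end

end Pool.Agent.MP_3ee8cb_gt.DZZ
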