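import Pool.Agent.MP_3ee8cb_gt.DZZ.Mon

/-! Existence and stability of the zero of the averaged field. -/

namespace Pool.Agent.MP_3ee8cb_gt.DZZ

open Set Filter Topology MeasureTheory DN
open scoped RealInnerProductSpace

noncomputable section

variable [Dim] {m : MF} {lg : V × V → V} {μ : Measure V} {u u' : V × V → ℝ} {ε : ℝ}

theorem av_int (hμ : Rot μ) (hu : ContinuousOn u {p | ‖p.2‖ = 1}) (y : V) :
    Integrable (fun w => u (y, ‖w‖⁻¹ • w) • ‖w‖⁻¹ • w) μ :=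
  hμ.int (f := fun w => u (y, w) • w)
    ((hu.comp (f := fun w => (y, w)) (by fun_prop) fun _ hw => hw).smul continuousOn_id)

theorem av_sub (hμ : Rot μ) (hu : ContinuousOn u {p | ‖p.2‖ = 1})
    (hu' : ContinuousOn u' {p | ‖p.2‖ = 1}) {y y' : V} {δ : ℝ}
    (h : ∀ w, ‖w‖ = 1 → |u (y, w) - u' (y', w)| ≤ δ) : ‖av μ u y - av μ u' y'‖ ≤ dm * δ := by
  have := hμ.fin
  rw [av, av, ← integral_sub (av_int hμ hu y) (av_int hμ hu' y'), ← hμ.mass, mul_comm]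
  exact norm_integral_le_of_norm_le_const (hμ.ne.mono fun w hw => by
    rw [← sub_smul, norm_smul, nrm hw, mul_one]
    exact h _ (nrm hw))

theorem av_const (hμ : Rot μ) (k : ℝ) (y : V) : av μ (fun _ => k) y = 0 := by
  have := hμ.comp (.neg ℝ) fun w => k • w
  simp only [LinearIsometryEquiv.coe_neg, smul_neg, integral_neg] at this
  have k1 := add_eq_zero_iff_eq_neg.2 this
  rw [← two_smul ℝ] at k1
  exact (smul_eq_zero.1 k1).resolve_left two_ne_zero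

theorem av_le (hμ : Rot μ) (hu : ContinuousOn u {p | ‖p.2‖ = 1}) {y : V} {k δ : ℝ}
    (h : ∀ w, ‖w‖ = 1 → |u (y, w) - k| ≤ δ) : ‖av μ u y‖ ≤ dm * δ := by
  have := av_sub hμ hu (u' := fun _ => k) continuousOn_const (y' := y) h
  rwa [av_const hμ, sub_zero] at this

theorem av_cont (hμ : Rot μ) (hu : ContinuousOn u {p | ‖p.2‖ = 1}) : Continuous (av μ u) := by
  refine continuous_iff_continuousAt.2 fun y => Metric.tendsto_nhds.2 fun η hη => ?_
  have d0 : (0 : ℝ) < dm + 1 := by positivity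
  have k : ∀ᶠ y' in 𝓝 y, ∀ w ∈ Metric.sphere (0 : V) 1, ‖w‖ = 1 →
      |u (y', w) - u (y, w)| ≤ η / (dm + 1) := by
    refine (isCompact_sphere 0 1).eventually_forall_of_forall_eventually fun w hw => ?_
    have c : ContinuousWithinAt (fun p : V × V => |u p - u (y, p.2)|) {p | ‖p.2‖ = 1} (y, w) :=
      (hu.sub (hu.comp (f := fun p : V × V => (y, p.2)) (by fun_prop) fun _ hp => hp)).abs (y, w)
        (mem_sphere_zero_iff_norm.1 hw)
    exact eventually_nhdsWithin_iff.1 (c.eventually (ge_mem_nhds (by simpa using div_pos hη d0)))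
  filter_upwards [k] with y' h
  rw [dist_eq_norm]
  refine (av_sub hμ hu hu fun w hw => h w (by simpa using hw) hw).trans_lt ?_
  rw [mul_div_assoc', div_lt_iff₀ d0]
  linarith

theorem zero (ho : m.OK) (hj : m.Jac) (hl : m.Had lg) (hμ : Rot μ)
    (hu : ContinuousOn u {p | ‖p.2‖ = 1}) (hε : 2 * dm * ε ≤ 1) {y : V} {k δ ρ : ℝ}
    (h : ∀ w, ‖w‖ = 1 → |u (y, w) - k| ≤ δ) (hρ : 2 * dm * δ < ρ) (ρ0 : 0 < ρ)
    (ht : ∀ z w, ‖lg (y, z)‖ ≤ ρ → ‖w‖ = 1 → Tch m u ε (z, w)) :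
    ∃ z, ‖lg (y, z)‖ ≤ ρ ∧ av μ u z = 0 := by
  refine zero_ex ho hl (av_cont hμ hu) y ρ0 fun b hb => ?_
  have k1 := mono (ε := ε) ho hj hμ hu (y, b) zero_le_one fun t s w hw => ht _ w (by
    rw [DNWI.lg_ray hj hl t (y, b), norm_smul, hb, Real.norm_of_nonneg s.1]
    exact mul_le_of_le_one_left ρ0.le s.2) hw
  have k2 := real_inner_le_norm (av μ u y) b
  have k3 := mul_le_mul_of_nonneg_right (av_le hμ hu h) ρ0.le
  have k4 := mul_le_mul_of_nonneg_right (av_le hμ hu h) ρ0.le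
  rw [ho.zero] at k1
  simp only [hb] at k1 k2
  rw [real_inner_comm]
  nlinarith [mul_pos ρ0 (sub_pos.2 hρ), mul_nonneg (sub_nonneg.2 hε) (sq_nonneg ρ)]

theorem stab (ho : m.OK) (hj : m.Jac) (hl : m.Had lg) (hμ : Rot μ)
    (hu : ContinuousOn u {p | ‖p.2‖ = 1}) (hu' : ContinuousOn u' {p | ‖p.2‖ = 1})
    (hε : 2 * dm * ε ≤ 1) {z z' : V} {δ : ℝ} (h0 : av μ u z = 0) (h1 : av μ u' z' = 0)
    (h : ∀ w, ‖w‖ = 1 → |u (z', w) - u' (z', w)| ≤ δ)
    (ht : ∀ t ∈ Icc (0 : ℝ) 1, ∀ w, ‖w‖ = 1 → Tch m u ε ((m.Z t (z, lg (z, z'))).1, w)) :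
    ‖lg (z, z')‖ ≤ 2 * dm * δ := by
  have k1 := mono ho hj hμ hu (z, lg (z, z')) zero_le_one ht
  have k2 := av_sub hμ hu hu' h
  have k3 := neg_le_of_abs_le (abs_real_inner_le_norm (av μ u z') (m.Z 1 (z, lg (z, z'))).2)
  rw [ho.zero, hl.ex, h0, inner_zero_left] at k1
  rw [h1, sub_zero] at k2
  rw [hj.norm] at k3
  simp only at k1 k3
  have k4 := (norm_nonneg _).trans k2
  refine not_lt.1 fun k5 => ?_
  have k6 : 0 < ‖lg (z, z')‖ := by linarith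
  nlinarith [mul_pos k6 (sub_pos.2 k5), mul_nonneg (sub_nonneg.2 hε) (sq_nonneg ‖lg (z, z')‖),
    mul_le_mul_of_nonneg_right k2 k6.le]

end

end Pool.Agent.MP_3ee8cb_gt.DZZ
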